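import Pool.Agent.N919.RE.Am

/-!
# Ambiguous forms and factorizations, even discriminants
-/

set_option autoImplicit false

namespace Pool.Agent.N919.RE

open Finset
open Pool.Agent.N877.TF hiding fo
open Pool.Agent.N916.RE (sq_fac fo)

/-- the factorizations -/
def AE (l m : ℕ) : Finset (ℕ × ℕ) := (({1, 2} : Finset ℕ) ×ˢ m.divisors).filter fun q =>
  (q.1 = 2 → m % 2 = 1) ∧ q.2 * q.2 < m ∧ Cc l q.1 q.2 (m / q.2)

theorem jac_sq4 {l p : ℕ} (hp : p.Prime) (h2 : p ≠ 2) (x : ℤ) :
    jacobiSym (-((l : ℤ) * (4 * x))) p = jacobiSym (-((l : ℤ) * x)) p := by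
  have h : jacobiSym ((2 : ℤ) ^ 2) p = 1 := by
    apply jacobiSym.sq_one'
    have : IsCoprime (2 : ℤ) (p : ℤ) := by
      have : Nat.Coprime 2 p := (Nat.coprime_primes Nat.prime_two hp).2 (Ne.symm h2)
      exact_mod_cast Nat.isCoprime_iff_coprime.2 this
    exact Int.isCoprime_iff_gcd_eq_one.1 this
  have e : -((l : ℤ) * (4 * x)) = -((l : ℤ) * x) * 2 ^ 2 := by ring
  rw [e, jacobiSym.mul_left, h, mul_one]

theorem jac_mod {l p : ℕ} {x y : ℤ} (h : (p : ℤ) ∣ x - y) :
    jacobiSym (-((l : ℤ) * x)) p = jacobiSym (-((l : ℤ) * y)) p := by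
  apply jacobiSym.mod_left'
  refine Int.ModEq.symm (Int.modEq_iff_dvd.2 ?_)
  have : -((l : ℤ) * x) - -((l : ℤ) * y) = (x - y) * (-(l : ℤ)) := by ring
  rw [this]
  exact Dvd.dvd.mul_right h _

/-- the genus condition for the primes of `m` in terms of a factorization -/
theorem gen_fac {l m r s : ℕ} (hsq : Squarefree m) (h : r * s = m) (t : ℕ) {g : ℤ × ℤ × ℤ}
    (h1 : ∀ p : ℕ, p.Prime → p ≠ 2 → p ∣ r → ¬ p ∣ s →
      jacobiSym (-((l : ℤ) * wv p g)) p = jacobiSym (-((l : ℤ) * ((t : ℤ) * s))) p)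
    (h2 : ∀ p : ℕ, p.Prime → p ≠ 2 → p ∣ s → ¬ p ∣ r →
      jacobiSym (-((l : ℤ) * wv p g)) p = jacobiSym (-((l : ℤ) * ((t : ℤ) * r))) p) :
    (∀ p ∈ m.primeFactors.erase 2, jacobiSym (-((l : ℤ) * wv p g)) p = 1) ↔ Cc l t r s := by
  obtain ⟨-, -, hcop, hr0, hs0⟩ := sq_fac hsq h
  have hn : ∀ p : ℕ, p.Prime → p ∣ r → ¬ p ∣ s := fun p hp h h' =>
    hp.one_lt.ne' (Nat.eq_one_of_dvd_coprimes hcop h h')
  have hm0 := hsq.ne_zero
  constructor
  · intro H
    constructor
    · intro p hp hp2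
      have hpp := Nat.prime_of_mem_primeFactors hp
      have hps := Nat.dvd_of_mem_primeFactors hp
      rw [← h2 p hpp hp2 hps (fun h' => hn p hpp h' hps)]
      exact H p (Finset.mem_erase.2 ⟨hp2, Nat.mem_primeFactors.2 ⟨hpp, by
        rw [← h]; exact Dvd.dvd.mul_left hps _, hm0⟩⟩)
    · intro p hp hp2
      have hpp := Nat.prime_of_mem_primeFactors hp
      have hps := Nat.dvd_of_mem_primeFactors hp
      rw [← h1 p hpp hp2 hps (hn p hpp hps)]
      exact H p (Finset.mem_erase.2 ⟨hp2, Nat.mem_primeFactors.2 ⟨hpp, by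
        rw [← h]; exact Dvd.dvd.mul_right hps _, hm0⟩⟩)
  · rintro ⟨k1, k2⟩ p hp
    obtain ⟨hp2, hp⟩ := Finset.mem_erase.1 hp
    have hpp := Nat.prime_of_mem_primeFactors hp
    have hpm := Nat.dvd_of_mem_primeFactors hp
    rw [← h, Nat.Prime.dvd_mul hpp] at hpm
    rcases hpm with h3 | h3
    · rw [h1 p hpp hp2 h3 (hn p hpp h3)]
      exact k2 p (Nat.mem_primeFactors.2 ⟨hpp, h3, hr0.ne'⟩) hp2
    · have h4 : ¬ p ∣ r := fun h' => hn p hpp h' h3
      rw [h2 p hpp hp2 h3 h4]
      exact k1 p (Nat.mem_primeFactors.2 ⟨hpp, h3, hs0.ne'⟩) hp2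

theorem Gc_diag {l m r s : ℕ} (hlo : Odd l) (hsq : Squarefree m) (hm : m % 4 = 1 ∨ m % 4 = 2)
    (h5 : Cls l m) (h : r * s = m) : GcE l m ((r : ℤ), 0, (s : ℤ)) ↔ Cc l 1 r s := by
  have hg := gen_fac (l := l) hsq h 1 (g := ((r : ℤ), 0, (s : ℤ))) (fun p hp hp2 hpr hps => by
      have : wv p ((r : ℤ), 0, (s : ℤ)) = s := by
        unfold wv; simp only; rw [if_pos (Int.natCast_dvd_natCast.2 hpr)]
      rw [this]; push_cast; rw [one_mul]) (fun p hp hp2 hps hpr => by
      have : wv p ((r : ℤ), 0, (s : ℤ)) = r := by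
        unfold wv; simp only; rw [if_neg (fun h' => hpr (Int.natCast_dvd_natCast.1 h'))]
      rw [this]; push_cast; rw [one_mul])
  unfold GcE
  rw [hg]
  constructor
  · exact fun h => h.1
  · intro hC
    refine ⟨hC, ?_⟩
    by_cases hr : 2 ∣ r
    · have hw : wv 2 ((r : ℤ), 0, (s : ℤ)) = s := by
        unfold wv; simp only; rw [if_pos (Int.natCast_dvd_natCast.2 hr)]
      have hm2 : m % 4 = 2 := by
        have : 2 ∣ m := by rw [← h]; exact Dvd.dvd.mul_right hr _
        omega
      have hs : Odd s := by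
        rw [← Nat.not_even_iff_odd, even_iff_two_dvd]
        intro hs
        obtain ⟨-, -, hcop, -⟩ := sq_fac hsq h
        have := Nat.eq_one_of_dvd_coprimes hcop hr hs
        omega
      rw [hw]
      refine ⟨fun h1 => by omega, fun _ => ?_⟩
      have := rec3 hlo hsq hm2 h5 (by rw [← h, mul_comm]) hs (Cc_symm.1 hC)
      have e : (l : ℤ) * (s : ℤ) = ((l * s : ℕ) : ℤ) := by push_cast; rfl
      rw [e]
      generalize l * s = X at *
      omega
    · have hw : wv 2 ((r : ℤ), 0, (s : ℤ)) = r := by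
        unfold wv; simp only; rw [if_neg (fun h' => hr (Int.natCast_dvd_natCast.1 h'))]
      rw [hw]
      have hro : Odd r := by
        rw [← Nat.not_even_iff_odd, even_iff_two_dvd]; exact hr
      rcases hm with hm | hm
      · refine ⟨fun _ => ?_, fun h1 => by omega⟩
        have := rec1 hlo hsq hm h5 h hC
        have e : (l : ℤ) * (r : ℤ) = ((l * r : ℕ) : ℤ) := by push_cast; rfl
        rw [e]
        generalize l * r = X at *
        omega
      · refine ⟨fun h1 => by omega, fun _ => ?_⟩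
        have := rec3 hlo hsq hm h5 h hro hC
        have e : (l : ℤ) * (r : ℤ) = ((l * r : ℕ) : ℤ) := by push_cast; rfl
        rw [e]
        generalize l * r = X at *
        omega

theorem Gc_two {l m r s k : ℕ} (hlo : Odd l) (hsq : Squarefree m) (hm : m % 4 = 1)
    (h5 : Cls l m) (h : r * s = m) (hk : r + s = 2 * k) (g : ℤ × ℤ × ℤ)
    (hg : g = (2 * (r : ℤ), 2 * (r : ℤ), (k : ℤ)) ∨ g = ((k : ℤ), (s : ℤ) - r, (k : ℤ))) :
    GcE l m g ↔ Cc l 2 r s := by
  have hkZ : (r : ℤ) + s = 2 * k := by exact_mod_cast hk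
  have hkr : ∀ p : ℕ, p.Prime → p ≠ 2 → p ∣ r →
      jacobiSym (-((l : ℤ) * (k : ℤ))) p = jacobiSym (-((l : ℤ) * (((2 : ℕ) : ℤ) * s))) p := by
    intro p hp hp2 hpr
    rw [← jac_sq4 hp hp2]
    apply jac_mod
    have e : (4 : ℤ) * k - ((2 : ℕ) : ℤ) * s = r * 2 := by push_cast; linarith
    rw [e]
    exact Dvd.dvd.mul_right (by exact_mod_cast hpr) _
  have hks : ∀ p : ℕ, p.Prime → p ≠ 2 → p ∣ s →
      jacobiSym (-((l : ℤ) * (k : ℤ))) p = jacobiSym (-((l : ℤ) * (((2 : ℕ) : ℤ) * r))) p := by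
    intro p hp hp2 hpr
    rw [← jac_sq4 hp hp2]
    apply jac_mod
    have e : (4 : ℤ) * k - ((2 : ℕ) : ℤ) * r = s * 2 := by push_cast; linarith
    rw [e]
    exact Dvd.dvd.mul_right (by exact_mod_cast hpr) _
  have hgf := gen_fac (l := l) hsq h 2 (g := g) (fun p hp hp2 hpr hps => by
      rcases hg with rfl | rfl
      · have : wv p (2 * (r : ℤ), 2 * (r : ℤ), (k : ℤ)) = k := by
          unfold wv; rw [if_pos (Dvd.dvd.mul_left (by exact_mod_cast hpr) _)]
        rw [this]; exact hkr p hp hp2 hpr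
      · have : wv p ((k : ℤ), (s : ℤ) - r, (k : ℤ)) = k := by
          unfold wv; simp
        rw [this]; exact hkr p hp hp2 hpr) (fun p hp hp2 hps hpr => by
      rcases hg with rfl | rfl
      · have : wv p (2 * (r : ℤ), 2 * (r : ℤ), (k : ℤ)) = 2 * r := by
          unfold wv
          rw [if_neg]
          intro h'
          rcases (Nat.prime_iff_prime_int.1 hp).dvd_or_dvd h' with h'' | h''
          · have : p ∣ 2 := by exact_mod_cast h''
            exact hp2 ((Nat.prime_dvd_prime_iff_eq hp Nat.prime_two).1 this)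
          · exact hpr (by exact_mod_cast h'')
        rw [this]; push_cast; rfl
      · have : wv p ((k : ℤ), (s : ℤ) - r, (k : ℤ)) = k := by
          unfold wv; simp
        rw [this]; exact hks p hp hp2 hps)
  unfold GcE
  rw [hgf]
  constructor
  · exact fun h => h.1
  · intro hC
    refine ⟨hC, fun _ => ?_, fun h1 => by omega⟩
    have h6 := rec2 hlo hsq hm h5 h hC
    have h7 : l * (r + s) = 2 * (l * k) := by rw [hk]; ring
    rw [h7] at h6
    have e : (l : ℤ) * (k : ℤ) = ((l * k : ℕ) : ℤ) := by push_cast; rfl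
    have hw : wv 2 g = k := by
      rcases hg with rfl | rfl
      · unfold wv
        simp only
        rw [if_pos (by push_cast; exact Dvd.intro _ rfl)]
      · unfold wv; simp
    rw [hw, e]
    generalize l * k = X at *
    omega

/-- ambiguous reduced forms are factorizations -/
theorem card_amb {l m : ℕ} (hlo : Odd l) (hsq : Squarefree m) (hm : m % 4 = 1 ∨ m % 4 = 2)
    (h5 : Cls l m) (hm1 : m ≠ 1) :
    ((Rd (4 * m)).filter fun g => GcE l m g ∧ (g.2.1 = 0 ∨ g.2.1 = g.1 ∨ g.1 = g.2.2)).card =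
      (AE l m).card := by
  symm
  have hm0 : m ≠ 0 := hsq.ne_zero
  -- data of a factorization
  have hdat : ∀ t r : ℕ, (t, r) ∈ AE l m → ∃ s, m / r = s ∧ r * s = m ∧ 0 < r ∧ r < s ∧
      (t = 1 ∨ (t = 2 ∧ m % 4 = 1)) ∧ Cc l t r s := by
    intro t r ht
    simp only [AE, mem_filter, mem_product, mem_insert, mem_singleton, Nat.mem_divisors] at ht
    obtain ⟨⟨h1, h2, -⟩, h3, h4, h6⟩ := ht
    have hrs : r * (m / r) = m := Nat.mul_div_cancel' h2
    obtain ⟨-, -, -, hr0, hs0⟩ := sq_fac hsq hrs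
    refine ⟨m / r, rfl, hrs, hr0, ?_, ?_, h6⟩
    · have : r * r < r * (m / r) := by rw [hrs]; exact h4
      exact Nat.lt_of_mul_lt_mul_left this
    · rcases h1 with h1 | h1
      · exact Or.inl h1
      · exact Or.inr ⟨h1, by have := h3 h1; omega⟩
  have hpar : ∀ r s : ℕ, r * s = m → m % 4 = 1 → ∃ k, r + s = 2 * k := by
    intro r s hrs h1
    have hmo : Odd (r * s) := by rw [hrs, Nat.odd_iff]; omega
    obtain ⟨hr, hs⟩ := Nat.odd_mul.1 hmo
    rw [Nat.odd_iff] at hr hs
    exact ⟨(r + s) / 2, by omega⟩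
  refine Finset.card_bij (fun q _ => fo m q) ?_ ?_ ?_
  · rintro ⟨t, r⟩ hq
    obtain ⟨s, hs, hrs, hr0, hlt, ht, hC⟩ := hdat t r hq
    have hrsZ : (r : ℤ) * s = m := by exact_mod_cast hrs
    rcases ht with rfl | ⟨rfl, hm4⟩
    · have hfo : fo m (1, r) = ((r : ℤ), 0, (s : ℤ)) := by
        unfold fo; simp only [if_true, hs]
      simp only [hfo, mem_filter, mem_Rd]
      refine ⟨⟨by push_cast; rw [← hrsZ]; ring, by omega, by omega, by omega, by omega,
        fun _ => le_refl _⟩, (Gc_diag hlo hsq hm h5 hrs).2 hC, by simp⟩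
    · obtain ⟨k, hk⟩ := hpar r s hrs hm4
      have hk2 : (r + s) / 2 = k := by omega
      have hkZ : (r : ℤ) + s = 2 * k := by exact_mod_cast hk
      by_cases hc : 3 * r ≤ s
      · have hfo : fo m (2, r) = (2 * (r : ℤ), 2 * (r : ℤ), (k : ℤ)) := by
          unfold fo; simp only [hs]; rw [if_neg (by norm_num), if_pos hc, hk2]
        simp only [hfo, mem_filter, mem_Rd]
        refine ⟨⟨?_, by omega, by omega, le_refl _, by omega, fun _ => by omega⟩,
          (Gc_two hlo hsq hm4 h5 hrs hk _ (Or.inl rfl)).2 hC, by simp⟩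
        push_cast; rw [← hrsZ]; linear_combination -(4 * (r : ℤ)) * hkZ
      · have hfo : fo m (2, r) = ((k : ℤ), (s : ℤ) - r, (k : ℤ)) := by
          unfold fo; simp only [hs]; rw [if_neg (by norm_num), if_neg hc, hk2]
        simp only [hfo, mem_filter, mem_Rd]
        refine ⟨⟨?_, by omega, by omega, by omega, le_refl _, fun _ => by omega⟩,
          (Gc_two hlo hsq hm4 h5 hrs hk _ (Or.inr rfl)).2 hC, by simp⟩
        push_cast; rw [← hrsZ]; linear_combination -((r : ℤ) + s + 2 * k) * hkZ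
  · rintro ⟨t, r⟩ hq ⟨t', r'⟩ hq' heq
    have key : ∀ t r : ℕ, (t, r) ∈ AE l m →
        ((fo m (t, r)).2.1 = 0 → t = 1 ∧ (r : ℤ) = (fo m (t, r)).1) ∧
        ((fo m (t, r)).2.1 ≠ 0 → t = 2 ∧ 2 * (r : ℤ) = 2 * (fo m (t, r)).1 - (fo m (t, r)).2.1) := by
      intro t r hq
      obtain ⟨s, hs, hrs, hr0, hlt, ht, hC⟩ := hdat t r hq
      rcases ht with rfl | ⟨rfl, hm4⟩
      · have hfo : fo m (1, r) = ((r : ℤ), 0, (s : ℤ)) := by
          unfold fo; simp only [if_true, hs]
        rw [hfo]
        exact ⟨fun _ => ⟨rfl, rfl⟩, fun h => absurd rfl h⟩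
      · obtain ⟨k, hk⟩ := hpar r s hrs hm4
        have hk2 : (r + s) / 2 = k := by omega
        by_cases hc : 3 * r ≤ s
        · have hfo : fo m (2, r) = (2 * (r : ℤ), 2 * (r : ℤ), (k : ℤ)) := by
            unfold fo; simp only [hs]; rw [if_neg (by norm_num), if_pos hc, hk2]
          rw [hfo]
          simp only
          exact ⟨fun h => by omega, fun _ => ⟨trivial, by ring⟩⟩
        · have hfo : fo m (2, r) = ((k : ℤ), (s : ℤ) - r, (k : ℤ)) := by
            unfold fo; simp only [hs]; rw [if_neg (by norm_num), if_neg hc, hk2]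
          rw [hfo]
          simp only
          exact ⟨fun h => by omega, fun _ => ⟨trivial, by omega⟩⟩
    obtain ⟨k1, k2⟩ := key t r hq
    obtain ⟨k1', k2'⟩ := key t' r' hq'
    rw [show fo m (t, r) = fo m (t', r') from heq] at k1 k2
    by_cases h : (fo m (t', r')).2.1 = 0
    · obtain ⟨a1, a2⟩ := k1 h
      obtain ⟨b1, b2⟩ := k1' h
      rw [Prod.mk.injEq]
      exact ⟨by rw [a1, b1], by omega⟩
    · obtain ⟨a1, a2⟩ := k2 h
      obtain ⟨b1, b2⟩ := k2' h
      rw [Prod.mk.injEq]
      exact ⟨by rw [a1, b1], by omega⟩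
  · rintro ⟨a, b, c⟩ hg
    obtain ⟨h1, hG, h3⟩ := mem_filter.1 hg
    obtain ⟨r1, r2, r3, r4, r5, r6⟩ := mem_Rd.1 h1
    simp only at r1 r2 r3 r4 r5 r6 h3
    push_cast at r1
    -- membership from the data
    have hback : ∀ t r s : ℕ, (t = 1 ∨ (t = 2 ∧ m % 4 = 1)) → 0 < r → r * s = m → r < s →
        fo m (t, r) = (a, b, c) → ∃ q, ∃ hq : q ∈ AE l m, fo m q = (a, b, c) := by
      intro t r s ht hr0 hrs hlt hfo
      have hs : m / r = s := Nat.div_eq_of_eq_mul_right hr0 hrs.symm
      have hC : Cc l t r s := by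
        rcases ht with rfl | ⟨rfl, hm4⟩
        · have hfo' : fo m (1, r) = ((r : ℤ), 0, (s : ℤ)) := by
            unfold fo; simp only [if_true, hs]
          rw [← Gc_diag hlo hsq hm h5 hrs, ← hfo', hfo]
          exact hG
        · obtain ⟨k, hk⟩ := hpar r s hrs hm4
          have hk2 : (r + s) / 2 = k := by omega
          have hfo' : fo m (2, r) = (2 * (r : ℤ), 2 * (r : ℤ), (k : ℤ)) ∨
              fo m (2, r) = ((k : ℤ), (s : ℤ) - r, (k : ℤ)) := by
            by_cases hc : 3 * r ≤ s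
            · left
              unfold fo; simp only [hs]; rw [if_neg (by norm_num), if_pos hc, hk2]
            · right
              unfold fo; simp only [hs]; rw [if_neg (by norm_num), if_neg hc, hk2]
          rw [← Gc_two hlo hsq hm4 h5 hrs hk _ hfo', hfo]
          exact hG
      refine ⟨(t, r), ?_, hfo⟩
      simp only [AE, mem_filter, mem_product, mem_insert, mem_singleton, Nat.mem_divisors]
      refine ⟨⟨?_, ⟨s, hrs.symm⟩, hm0⟩, ?_, ?_, ?_⟩
      · rcases ht with h | h
        · exact Or.inl h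
        · exact Or.inr h.1
      · intro h
        rcases ht with h' | h'
        · omega
        · omega
      · calc r * r < r * s := Nat.mul_lt_mul_of_pos_left hlt hr0
          _ = m := hrs
      · rw [hs]; exact hC
    by_cases hb : b = 0
    · subst hb
      obtain ⟨r, hr⟩ : ∃ r : ℕ, (r : ℤ) = a := ⟨a.toNat, Int.toNat_of_nonneg (by omega)⟩
      obtain ⟨s, hs⟩ : ∃ s : ℕ, (s : ℤ) = c := ⟨c.toNat, Int.toNat_of_nonneg (by omega)⟩
      have hrs : r * s = m := by
        have : (r : ℤ) * s = m := by rw [hr, hs]; linarith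
        exact_mod_cast this
      have hr0 : 0 < r := by omega
      have hlt : r < s := by
        rcases lt_or_eq_of_le r5 with h | h
        · omega
        · exfalso
          have hrs' : r = s := by omega
          rw [← hrs'] at hrs
          have := Nat.isUnit_iff.1 (hsq r ⟨1, by rw [mul_one]; exact hrs.symm⟩)
          rw [this] at hrs
          exact hm1 hrs.symm
      refine hback 1 r s (Or.inl rfl) hr0 hrs hlt ?_
      have hs' : m / r = s := Nat.div_eq_of_eq_mul_right hr0 hrs.symm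
      unfold fo
      simp only [if_true, hs', hr, hs]
    · -- `b` is even
      obtain ⟨b', hb'⟩ : ∃ b', b = 2 * b' := by
        rcases Int.even_or_odd b with ⟨k, hk⟩ | ⟨k, hk⟩
        · exact ⟨k, by rw [hk]; ring⟩
        · exfalso
          rw [hk] at r1
          have : 4 * (a * c - k ^ 2 - k - m) = 1 := by linear_combination r1
          omega
      have hm' : a * c - b' ^ 2 = m := by rw [hb'] at r1; linarith
      have hodd4 : ∀ r s : ℕ, r * s = m → (r + s) % 2 = 0 → m % 4 = 1 := by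
        intro r s hrs hpa
        rcases hm with h | h
        · exact h
        · exfalso
          have h7 : (r % 4) * (s % 4) % 4 = 2 := by rw [← Nat.mul_mod, hrs, h]
          have h8 : (r % 4 + s % 4) % 2 = 0 := by omega
          have h9 : r % 4 < 4 := Nat.mod_lt _ (by norm_num)
          have h10 : s % 4 < 4 := Nat.mod_lt _ (by norm_num)
          interval_cases r % 4 <;> interval_cases s % 4 <;> simp_all
      by_cases hba : b = a
      · -- type two
        have ha' : a = 2 * b' := by rw [← hba, hb']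
        obtain ⟨r, hr⟩ : ∃ r : ℕ, (r : ℤ) = b' := ⟨b'.toNat, Int.toNat_of_nonneg (by omega)⟩
        obtain ⟨s, hs⟩ : ∃ s : ℕ, (s : ℤ) = 2 * c - b' :=
          ⟨(2 * c - b').toNat, Int.toNat_of_nonneg (by omega)⟩
        have hrs : r * s = m := by
          have : (r : ℤ) * s = m := by rw [hr, hs, ← hm', ha']; ring
          exact_mod_cast this
        have hr0 : 0 < r := by omega
        have hlt : r < s := by omega
        have hm4 := hodd4 r s hrs (by omega)
        refine hback 2 r s (Or.inr ⟨rfl, hm4⟩) hr0 hrs hlt ?_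
        have hs' : m / r = s := Nat.div_eq_of_eq_mul_right hr0 hrs.symm
        unfold fo
        simp only [hs']
        rw [if_neg (by norm_num), if_pos (by omega)]
        have : (((r + s) / 2 : ℕ) : ℤ) = c := by omega
        rw [this, hr, hb', ha']
      · have hac : a = c := by
          rcases h3 with h | h | h
          · exact absurd h hb
          · exact absurd h hba
          · exact h
        subst hac
        have hbp : 0 < b := lt_of_le_of_ne (r6 rfl) (Ne.symm hb)
        have hbl : b < a := lt_of_le_of_ne r4 hba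
        obtain ⟨r, hr⟩ : ∃ r : ℕ, (r : ℤ) = a - b' :=
          ⟨(a - b').toNat, Int.toNat_of_nonneg (by omega)⟩
        obtain ⟨s, hs⟩ : ∃ s : ℕ, (s : ℤ) = a + b' :=
          ⟨(a + b').toNat, Int.toNat_of_nonneg (by omega)⟩
        have hrs : r * s = m := by
          have : (r : ℤ) * s = m := by rw [hr, hs, ← hm']; ring
          exact_mod_cast this
        have hr0 : 0 < r := by omega
        have hlt : r < s := by omega
        have hm4 := hodd4 r s hrs (by omega)
        refine hback 2 r s (Or.inr ⟨rfl, hm4⟩) hr0 hrs hlt ?_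
        have hs' : m / r = s := Nat.div_eq_of_eq_mul_right hr0 hrs.symm
        unfold fo
        simp only [hs']
        rw [if_neg (by norm_num), if_neg (by omega)]
        have : (((r + s) / 2 : ℕ) : ℤ) = a := by omega
        rw [this, hr, hs, hb']
        simp only [Prod.mk.injEq, true_and, and_true]
        ring

end Pool.Agent.N919.RE
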