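import Pool.Agent.N916.RE.Ba
import Pool.Agent.N919.P17.Two

/-!
# Counting pairs with a given Gram matrix, even discriminants, one or two lattices of
# determinant `2 l` (after helper916)
-/

set_option autoImplicit false

namespace Pool.Agent.N919.RE

open Finset Matrix Pool.Agent.N877.TF Pool.Agent.N919.P17

/-- the weighted number of frames of two lattices of determinant `2 l` -/
def TorsE (S S' : Co) (w w' τ : ℕ) (l : ℤ) : Prop := ∀ a b c p q r' : ℤ, 0 < a →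
  0 < 4 * a * c - b ^ 2 →
  4 * a * c * r' + b * p * q - a * q ^ 2 - c * p ^ 2 - r' * b ^ 2 = l →
  w * Nat.card (S.Fr (2 * a) b (2 * c) p q (2 * r')) +
    w' * Nat.card (S'.Fr (2 * a) b (2 * c) p q (2 * r')) = τ

/-- vectors of norm `4 m` are primitive -/
theorem prim {S : Co} (hS4 : ∀ w : V, S.nm w % 4 = 0 ∨ S.nm w % 4 = 3) {m : ℕ}
    (hsq : Squarefree m) (hm : m % 4 = 1 ∨ m % 4 = 2) {v : V}
    (h : S.nm v = (4 * m : ℕ)) : ∃ y, dt v y = 1 := by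
  apply bez
  intro g hg
  choose w hw using hg
  have h0 : v = (g : ℤ) • w := funext fun i => by rw [Pi.smul_apply, smul_eq_mul]; exact hw i
  have h1 : (g : ℤ) ^ 2 * S.nm w = 4 * m := by
    rw [← nm_smul, ← h0, h]; push_cast; ring
  have h4 := hS4 w
  have hg0 : g ≠ 0 := by
    rintro rfl
    have : (0 : ℤ) = 4 * m := by rw [← h1]; norm_num
    omega
  -- `g` is odd
  have hodd : ¬ 2 ∣ g := by
    rintro ⟨k, rfl⟩
    have h2 : (k : ℤ) ^ 2 * S.nm w = m := by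
      have : (4 : ℤ) * (k ^ 2 * S.nm w) = 4 * m := by rw [← h1]; push_cast; ring
      linarith
    have h3 : ((k * k : ℕ) : ℤ) ∣ (m : ℤ) := ⟨S.nm w, by rw [← h2]; push_cast; ring⟩
    have h5 : k * k ∣ m := by exact_mod_cast h3
    have h6 := Nat.isUnit_iff.1 (hsq k h5)
    subst h6
    norm_num at h2
    omega
  have h5 : g * g ∣ 4 * m := by
    have : ((g * g : ℕ) : ℤ) ∣ ((4 * m : ℕ) : ℤ) := ⟨S.nm w, by push_cast; rw [← h1]; ring⟩
    exact_mod_cast this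
  have h6 : Nat.Coprime (g * g) 4 := by
    have h7 : Nat.Coprime g 2 := by
      rw [Nat.coprime_comm]
      exact (Nat.Prime.coprime_iff_not_dvd Nat.prime_two).2 hodd
    have h8 : Nat.Coprime g 4 := by
      have : (4 : ℕ) = 2 * 2 := rfl
      rw [this]
      exact Nat.Coprime.mul_right h7 h7
    exact Nat.Coprime.mul_left h8 h8
  exact Nat.isUnit_iff.1 (hsq g (h6.dvd_of_dvd_mul_left h5))

/-- the index set -/
def Ie (m : ℕ) (w : ℤ) : Finset (ℕ × ℕ) := (range (2 * m) ×ˢ range 2).filter fun t =>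
  ((4 * m : ℕ) : ℤ) ∣ (t.1 : ℤ) ^ 2 + m * (t.2 : ℤ) ^ 2 + w

theorem PP_sum {S : Co} (hfin : FinFr S) {l : ℤ} (hd : S.d = 2 * l) (hS2 : ∀ v, Even (S.B v v))
    {a b c : ℤ} {m : ℕ} (hn : a * c - b ^ 2 = m) (ha : 0 < a) (hm0 : 0 < m)
    (hodd : Odd a) (hcop : IsCoprime a (m : ℤ)) (hpr : ∀ v, S.nm v = (4 * m : ℕ) → ∃ z, dt v z = 1)
    {k1 k2 : ℤ} (hk : a * k2 - 2 * b * k1 = 1) {P Q R : ℤ × ℤ → ℤ}
    (hP : ∀ t, P t = t.2 + 2 * (k1 * (t.1 + b * t.2))) (hQ : ∀ t, Q t = k2 * (t.1 + b * t.2))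
    (hR : ∀ t : ℤ × ℤ, (4 * (m : ℤ)) ∣ t.1 ^ 2 + m * t.2 ^ 2 + l * a →
      (4 * (m : ℤ)) * R t = l + c * P t ^ 2 - 2 * b * P t * Q t + a * Q t ^ 2) :
    Nat.card (S.PP (2 * a) (2 * b) (2 * c)) = ∑ t ∈ Ie m (l * a),
      Nat.card (S.Fr (2 * a) (2 * b) (2 * c) (P ((t.1 : ℤ), (t.2 : ℤ))) (Q ((t.1 : ℤ), (t.2 : ℤ)))
        (2 * R ((t.1 : ℤ), (t.2 : ℤ)))) := by
  have hmZ : (0 : ℤ) < m := by exact_mod_cast hm0
  -- `a` is prime to `2 b`
  have ha2 : IsCoprime a 2 := by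
    obtain ⟨k, hk⟩ := hodd
    exact ⟨1, -k, by rw [hk]; ring⟩
  have ha4 : IsCoprime a (4 * (m : ℤ)) := by
    have : (4 : ℤ) * m = 2 * (2 * m) := by ring
    rw [this]
    exact ha2.mul_right (ha2.mul_right hcop)
  have hPQ : ∀ t, a * Q t - b * P t = t.1 := by
    intro t
    rw [hP, hQ]
    linear_combination (t.1 + b * t.2) * hk
  have hW : ∀ t, a * (l + c * P t ^ 2 - 2 * b * P t * Q t + a * Q t ^ 2) =
      t.1 ^ 2 + m * P t ^ 2 + l * a := by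
    intro t
    have := hPQ t
    linear_combination (a * Q t - b * P t + t.1) * this + P t ^ 2 * hn
  have hdiv : ∀ t, (4 * (m : ℤ)) ∣ (l + c * P t ^ 2 - 2 * b * P t * Q t + a * Q t ^ 2) ↔
      (4 * (m : ℤ)) ∣ t.1 ^ 2 + m * t.2 ^ 2 + l * a := by
    intro t
    have e1 : a * (l + c * P t ^ 2 - 2 * b * P t * Q t + a * Q t ^ 2) =
        (t.1 ^ 2 + m * t.2 ^ 2 + l * a) +
        4 * m * (t.2 * (k1 * (t.1 + b * t.2)) + (k1 * (t.1 + b * t.2)) ^ 2) := by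
      rw [hW, hP]; ring
    constructor
    · intro h
      have h2 := Dvd.dvd.mul_left h a
      rw [e1] at h2
      exact (dvd_add_left (Dvd.intro _ rfl)).1 h2
    · intro h
      have h2 : (4 * (m : ℤ)) ∣ a * (l + c * P t ^ 2 - 2 * b * P t * Q t + a * Q t ^ 2) := by
        rw [e1]; exact dvd_add h (Dvd.intro _ rfl)
      exact ha4.symm.dvd_of_dvd_mul_left h2
  have hmem : ∀ t ∈ Ie m (l * a), (4 * (m : ℤ)) ∣ ((t.1 : ℤ)) ^ 2 + m * (t.2 : ℤ) ^ 2 + l * a := by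
    intro t ht
    have := (Finset.mem_filter.1 ht).2
    push_cast at this
    exact this
  haveI : ∀ t : {t : ℕ × ℕ // t ∈ Ie m (l * a)},
      Finite (S.Fr (2 * a) (2 * b) (2 * c) (P ((t.1.1 : ℤ), (t.1.2 : ℤ)))
        (Q ((t.1.1 : ℤ), (t.1.2 : ℤ))) (2 * R ((t.1.1 : ℤ), (t.1.2 : ℤ)))) := fun u => hfin _ _ _ _ _ _
  have hsig : Nat.card (Σ t : {t : ℕ × ℕ // t ∈ Ie m (l * a)},
      S.Fr (2 * a) (2 * b) (2 * c) (P ((t.1.1 : ℤ), (t.1.2 : ℤ)))
        (Q ((t.1.1 : ℤ), (t.1.2 : ℤ))) (2 * R ((t.1.1 : ℤ), (t.1.2 : ℤ)))) =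
      ∑ t ∈ Ie m (l * a),
      Nat.card (S.Fr (2 * a) (2 * b) (2 * c) (P ((t.1 : ℤ), (t.2 : ℤ))) (Q ((t.1 : ℤ), (t.2 : ℤ)))
        (2 * R ((t.1 : ℤ), (t.2 : ℤ)))) := by
    rw [Nat.card_sigma]
    exact Finset.sum_coe_sort (Ie m (l * a)) (fun t : ℕ × ℕ => Nat.card (S.Fr (2 * a) (2 * b) (2 * c)
      (P ((t.1 : ℤ), (t.2 : ℤ))) (Q ((t.1 : ℤ), (t.2 : ℤ))) (2 * R ((t.1 : ℤ), (t.2 : ℤ)))))
  rw [← hsig]
  symm
  refine Nat.card_eq_of_bijective (fun t => (⟨(t.2.1.1, t.2.1.2.1), t.2.2.2.1, t.2.2.2.2.1,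
    t.2.2.2.2.2.1⟩ : S.PP (2 * a) (2 * b) (2 * c))) ⟨?_, ?_⟩
  · rintro ⟨⟨⟨u, e⟩, hu⟩, ⟨⟨x, y, z⟩, h1, h2, h3, h4, h5, h6, h7⟩⟩
      ⟨⟨⟨u', e'⟩, hu'⟩, ⟨⟨x', y', z'⟩, g1, g2, g3, g4, g5, g6, g7⟩⟩ heq
    have e0 := congrArg Subtype.val heq
    simp only [Prod.mk.injEq] at e0
    obtain ⟨rfl, rfl⟩ := e0
    simp only at h1 h2 h3 h4 h5 h6 h7 g1 g2 g3 g4 g5 g6 g7
    -- the difference of the third vectors
    obtain ⟨k, j, hkl⟩ := span_of (x := x) (y := y) (z := z) (u := z' - z) h1 (by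
      have : dt (crs x y) (z' - z) = dt (crs x y) z' - dt (crs x y) z := by
        simp only [dt, Pi.sub_apply]; ring
      rw [this, h1, g1]; ring)
    have hz' : z' = z + k • x + j • y := by
      rw [add_assoc, ← hkl]; abel
    rw [hz', B_add, h2, h3, h5] at g5
    rw [hz', B_add, S.B_comm y x, h3, h4, h6] at g6
    have p1 := hPQ ((u : ℤ), (e : ℤ))
    have p2 := hPQ ((u' : ℤ), (e' : ℤ))
    simp only at p1 p2
    have hu1 : (u' : ℤ) - u = 2 * m * j := by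
      rw [← hn, ← p1, ← p2]
      linear_combination -a * g6 + b * g5
    obtain ⟨hr1, hr2⟩ := Finset.mem_product.1 (Finset.mem_filter.1 hu).1
    obtain ⟨hs1, hs2⟩ := Finset.mem_product.1 (Finset.mem_filter.1 hu').1
    simp only [mem_range] at hr1 hr2 hs1 hs2
    have hub : (u : ℤ) < 2 * m := by exact_mod_cast hr1
    have hub' : (u' : ℤ) < 2 * m := by exact_mod_cast hs1
    have hl : j = 0 := by
      by_contra hne
      rcases lt_or_gt_of_ne hne with h | h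
      · have : j ≤ -1 := by omega
        nlinarith
      · have : 1 ≤ j := by omega
        nlinarith
    subst hl
    have huu : u = u' := by
      have : (u' : ℤ) = u := by linarith
      exact_mod_cast this.symm
    subst huu
    have hee : e = e' := by
      rw [hP, hP] at g5
      simp only at g5
      have h8 : (e' : ℤ) - e = 2 * (k1 * (u + b * e) + a * k - k1 * (u + b * e')) := by
        linear_combination -g5
      omega
    subst hee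
    have hk0 : k = 0 := by
      have : 2 * a * k = 0 := by linarith
      rcases mul_eq_zero.1 this with h | h
      · exfalso; linarith
      · exact h
    subst hk0
    have : z' = z := by rw [hz']; simp
    subst this
    rfl
  · rintro ⟨⟨x, y⟩, h2, h3, h4⟩
    simp only at h2 h3 h4
    have hv : S.nm (crs x y) = (4 * m : ℕ) := by
      rw [S.lagrange, h2, h3, h4]; push_cast; rw [← hn]; ring
    obtain ⟨z0, hz0⟩ := hpr _ hv
    obtain ⟨u0, hu0⟩ : ∃ u0, u0 = a * S.B y z0 - b * S.B x z0 := ⟨_, rfl⟩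
    obtain ⟨j, hj⟩ : ∃ j, j = u0 / (2 * m) := ⟨_, rfl⟩
    have hmod := Int.emod_add_mul_ediv u0 (2 * m)
    have h2m : (0 : ℤ) < 2 * m := by linarith
    have hm0 := Int.emod_nonneg u0 h2m.ne'
    have hm1 := Int.emod_lt_of_pos u0 h2m
    obtain ⟨u, hu⟩ : ∃ u : ℕ, (u : ℤ) = u0 % (2 * m) := ⟨_, Int.toNat_of_nonneg hm0⟩
    rw [← hu] at hmod hm1
    rw [← hj] at hmod
    -- first adjustment
    obtain ⟨p1, hp1⟩ : ∃ p1, p1 = S.B x z0 - j * (2 * b) := ⟨_, rfl⟩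
    obtain ⟨q1, hq1⟩ : ∃ q1, q1 = S.B y z0 - j * (2 * c) := ⟨_, rfl⟩
    have hpq : a * q1 - b * p1 = u := by
      rw [hp1, hq1]
      linear_combination -hu0 - hmod - 2 * j * hn
    obtain ⟨e, he⟩ : ∃ e : ℕ, (e : ℤ) = p1 % 2 := ⟨_, Int.toNat_of_nonneg (Int.emod_nonneg _ (by norm_num))⟩
    have he2 : e < 2 := by
      have := Int.emod_lt_of_pos p1 (by norm_num : (0 : ℤ) < 2)
      rw [← he] at this
      exact_mod_cast this
    have hPQ' := hPQ ((u : ℤ), (e : ℤ))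
    simp only at hPQ'
    obtain ⟨f, hf⟩ : ∃ f, p1 - P ((u : ℤ), (e : ℤ)) = 2 * f := by
      rw [hP]
      simp only
      refine ⟨p1 / 2 - k1 * (u + b * e), ?_⟩
      have := Int.emod_add_mul_ediv p1 2
      rw [← he] at this
      linear_combination -this
    have hpq' : a * (q1 - Q ((u : ℤ), (e : ℤ))) = (2 * b) * f := by
      linear_combination hpq - hPQ' + b * hf
    have hab : IsCoprime a (2 * b) := ⟨k2, -k1, by linear_combination hk⟩
    obtain ⟨g, hg⟩ : a ∣ f := hab.dvd_of_dvd_mul_left (Dvd.intro _ hpq')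
    have hqm : q1 - Q ((u : ℤ), (e : ℤ)) = 2 * b * g := by
      apply mul_left_cancel₀ ha.ne'
      rw [hpq', hg]; ring
    set z : V := z0 + (-j) • y + (-g) • x with hz
    have hB1 : S.B x z = P ((u : ℤ), (e : ℤ)) := by
      rw [hz, B_add, h2, h3]
      rw [hg] at hf
      linear_combination hf - hp1
    have hB2 : S.B y z = Q ((u : ℤ), (e : ℤ)) := by
      rw [hz, B_add, S.B_comm y x, h3, h4]
      linear_combination hqm - hq1
    have hdz : dt (crs x y) z = 1 := by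
      rw [hz, dt_add, dt_crs_left, dt_crs_right, hz0]; ring
    have hgr := S.gram_det x y z
    obtain ⟨r, hr⟩ := hS2 z
    rw [h2, h3, h4, hB1, hB2, hdz, hr, hd] at hgr
    have hg' : (4 * (m : ℤ)) * r = l + c * P ((u : ℤ), (e : ℤ)) ^ 2 -
        2 * b * P ((u : ℤ), (e : ℤ)) * Q ((u : ℤ), (e : ℤ)) + a * Q ((u : ℤ), (e : ℤ)) ^ 2 := by
      apply mul_left_cancel₀ (two_ne_zero (α := ℤ))
      rw [← hn]
      linear_combination hgr
    have hmem' : (u, e) ∈ Ie m (l * a) := by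
      rw [Ie, Finset.mem_filter, Finset.mem_product, Finset.mem_range, Finset.mem_range]
      refine ⟨⟨by exact_mod_cast hm1, he2⟩, ?_⟩
      have := (hdiv ((u : ℤ), (e : ℤ))).1 ⟨r, hg'.symm⟩
      push_cast
      exact this
    refine ⟨⟨⟨(u, e), hmem'⟩, ⟨(x, y, z), hdz, h2, h3, h4, hB1, hB2, ?_⟩⟩, rfl⟩
    have h5 := hR ((u : ℤ), (e : ℤ)) (hmem _ hmem')
    have h6 : (4 * (m : ℤ)) * r = 4 * m * R ((u : ℤ), (e : ℤ)) := by rw [h5, hg']
    have h7 := mul_left_cancel₀ (by positivity : (4 * (m : ℤ)) ≠ 0) h6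
    rw [hr, h7]; ring

/-- the data of two lattices of determinant `2 l` -/
structure Dat (S S' : Co) (w w' τ : ℕ) (l : ℕ) : Prop where
  d1 : S.d = 2 * (l : ℤ)
  d2 : S'.d = 2 * (l : ℤ)
  f1 : FinFr S
  f2 : FinFr S'
  p1 : S.Pos
  p2 : S'.Pos
  e1 : ∀ v, Even (S.B v v)
  e2 : ∀ v, Even (S'.B v v)
  m1 : ∀ w : V, S.nm w % 4 = 0 ∨ S.nm w % 4 = 3
  m2 : ∀ w : V, S'.nm w % 4 = 0 ∨ S'.nm w % 4 = 3
  T : TorsE S S' w w' τ l

theorem card_PP {S S' : Co} {w w' τ l : ℕ} (D : Dat S S' w w' τ l)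
    {a b c : ℤ} {m : ℕ} (hsq : Squarefree m) (hm : m % 4 = 1 ∨ m % 4 = 2)
    (hn : a * c - b ^ 2 = m) (ha : 0 < a)
    (hodd : Odd a) (hcop : IsCoprime a (m : ℤ)) :
    w * Nat.card (S.PP (2 * a) (2 * b) (2 * c)) + w' * Nat.card (S'.PP (2 * a) (2 * b) (2 * c)) =
      τ * (Ie m (l * a)).card := by
  have hm0 : 0 < m := Nat.pos_of_ne_zero hsq.ne_zero
  have hmZ : (0 : ℤ) < m := by exact_mod_cast hm0
  have ha2 : IsCoprime a 2 := by
    obtain ⟨k, hk⟩ := hodd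
    exact ⟨1, -k, by rw [hk]; ring⟩
  have hab : IsCoprime a (2 * b) := by
    have h1 : IsCoprime a (b ^ 2) := by
      obtain ⟨u, v, huv⟩ := hcop
      refine ⟨u + v * c, -v, ?_⟩
      rw [← hn] at huv
      linear_combination huv
    exact ha2.mul_right ((IsCoprime.pow_right_iff (by norm_num)).1 h1)
  have ha4 : IsCoprime a (4 * (m : ℤ)) := by
    have : (4 : ℤ) * m = 2 * (2 * m) := by ring
    rw [this]
    exact ha2.mul_right (ha2.mul_right hcop)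
  obtain ⟨k2, k1', hk'⟩ := hab
  obtain ⟨k1, hk1⟩ : ∃ k1, k1 = -k1' := ⟨_, rfl⟩
  have hk : a * k2 - 2 * b * k1 = 1 := by rw [hk1]; linear_combination hk'
  clear hk' hk1
  obtain ⟨P, hP⟩ : ∃ P : ℤ × ℤ → ℤ, ∀ t, P t = t.2 + 2 * (k1 * (t.1 + b * t.2)) :=
    ⟨fun t => t.2 + 2 * (k1 * (t.1 + b * t.2)), fun _ => rfl⟩
  obtain ⟨Q, hQ⟩ : ∃ Q : ℤ × ℤ → ℤ, ∀ t, Q t = k2 * (t.1 + b * t.2) :=
    ⟨fun t => k2 * (t.1 + b * t.2), fun _ => rfl⟩
  obtain ⟨R, hR0⟩ : ∃ R : ℤ × ℤ → ℤ, ∀ t, R t =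
      (l + c * P t ^ 2 - 2 * b * P t * Q t + a * Q t ^ 2) / (4 * m) := ⟨_, fun _ => rfl⟩
  have hR : ∀ t : ℤ × ℤ, (4 * (m : ℤ)) ∣ t.1 ^ 2 + m * t.2 ^ 2 + l * a →
      (4 * (m : ℤ)) * R t = l + c * P t ^ 2 - 2 * b * P t * Q t + a * Q t ^ 2 := by
    intro t ht
    rw [hR0]
    apply Int.mul_ediv_cancel'
    have hPQ : a * Q t - b * P t = t.1 := by
      rw [hP, hQ]
      linear_combination (t.1 + b * t.2) * hk
    have e1 : a * (l + c * P t ^ 2 - 2 * b * P t * Q t + a * Q t ^ 2) =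
        (t.1 ^ 2 + m * t.2 ^ 2 + l * a) +
        4 * m * (t.2 * (k1 * (t.1 + b * t.2)) + (k1 * (t.1 + b * t.2)) ^ 2) := by
      have e2 : a * (l + c * P t ^ 2 - 2 * b * P t * Q t + a * Q t ^ 2) =
          t.1 ^ 2 + m * P t ^ 2 + l * a := by
        linear_combination (a * Q t - b * P t + t.1) * hPQ + P t ^ 2 * hn
      rw [e2, hP]; ring
    have h2 : (4 * (m : ℤ)) ∣ a * (l + c * P t ^ 2 - 2 * b * P t * Q t + a * Q t ^ 2) := by
      rw [e1]; exact dvd_add ht (Dvd.intro _ rfl)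
    exact ha4.symm.dvd_of_dvd_mul_left h2
  rw [PP_sum D.f1 D.d1 D.e1 hn ha hm0 hodd hcop (fun v hv => prim D.m1 hsq hm hv) hk hP hQ hR,
    PP_sum D.f2 D.d2 D.e2 hn ha hm0 hodd hcop (fun v hv => prim D.m2 hsq hm hv) hk hP hQ hR,
    Finset.mul_sum, Finset.mul_sum, ← Finset.sum_add_distrib]
  rw [Finset.sum_congr rfl (g := fun _ => τ), Finset.sum_const, smul_eq_mul, mul_comm]
  intro t ht
  apply D.T a (2 * b) c _ _ _ ha
  · have : 4 * a * c - (2 * b) ^ 2 = 4 * m := by rw [← hn]; ring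
    rw [this]; positivity
  · have ht' := (Finset.mem_filter.1 ht).2
    push_cast at ht'
    have h1 := hR ((t.1 : ℤ), (t.2 : ℤ)) ht'
    rw [← hn] at h1
    linear_combination h1

end Pool.Agent.N919.RE
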