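import Pool.Agent.N919.RE.Cn

/-!
# The size of the index set (after helper916)
-/

set_option autoImplicit false

namespace Pool.Agent.N919.RE

open Finset Pool.Agent.N877.TF

/-- the part of the index set at `2` -/
def JJ (A m : ℕ) (w : ℤ) : Finset (ℕ × ℕ) := (range A ×ˢ range 2).filter fun t =>
  ((2 * A : ℕ) : ℤ) ∣ (t.1 : ℤ) ^ 2 + m * (t.2 : ℤ) ^ 2 + w

theorem card_crt {A M m : ℕ} (hA : Even A) (hA0 : A ≠ 0) (hM2 : Odd M) (hAM : Nat.Coprime A M)
    (h2 : 2 * m = A * M) (hM : M ∣ m) (w : ℤ) :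
    (Ie m w).card = (Iu M w).card * (JJ A m w).card := by
  have hM0 : M ≠ 0 := by rintro rfl; exact absurd hM2 (by decide)
  obtain ⟨A', hA'⟩ := hA
  obtain ⟨m', hm'⟩ := hM
  have hAZ : (A : ℤ) = 2 * A' := by rw [hA']; push_cast; ring
  have h4 : ((4 * m : ℕ) : ℤ) = (2 * A : ℕ) * M := by
    have : 4 * m = 2 * A * M := by rw [mul_assoc, ← h2]; ring
    exact_mod_cast this
  have hcop : IsCoprime ((2 * A : ℕ) : ℤ) (M : ℤ) := by
    rw [Nat.isCoprime_iff_coprime]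
    refine Nat.Coprime.mul_left ?_ hAM
    rw [Nat.coprime_two_left]
    exact hM2
  -- the reductions
  have hr1 : ∀ (u v : ℕ) (p : ℕ), u % M = v % M → ((M : ℤ) ∣ (u : ℤ) ^ 2 + m * (p : ℤ) ^ 2 + w ↔
      (M : ℤ) ∣ (v : ℤ) ^ 2 + w) := by
    intro u v p h
    have h1 : (M : ℤ) ∣ (u : ℤ) - v := by
      have := (Nat.modEq_iff_dvd.1 (show v ≡ u [MOD M] from h.symm))
      exact this
    have h3 : (M : ℤ) ∣ ((u : ℤ) ^ 2 + m * (p : ℤ) ^ 2 + w) - ((v : ℤ) ^ 2 + w) := by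
      have : ((u : ℤ) ^ 2 + m * (p : ℤ) ^ 2 + w) - ((v : ℤ) ^ 2 + w) =
          ((u : ℤ) - v) * (u + v) + M * (m' * (p : ℤ) ^ 2) := by rw [hm']; push_cast; ring
      rw [this]
      exact dvd_add (Dvd.dvd.mul_right h1 _) (Dvd.intro _ rfl)
    exact (dvd_iff_dvd_of_dvd_sub h3)
  have hr2 : ∀ (u v : ℕ) (p : ℕ), u % A = v % A →
      (((2 * A : ℕ) : ℤ) ∣ (u : ℤ) ^ 2 + m * (p : ℤ) ^ 2 + w ↔
      ((2 * A : ℕ) : ℤ) ∣ (v : ℤ) ^ 2 + m * (p : ℤ) ^ 2 + w) := by
    intro u v p h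
    have h1 : (A : ℤ) ∣ (u : ℤ) - v := by
      have := (Nat.modEq_iff_dvd.1 (show v ≡ u [MOD A] from h.symm))
      exact this
    obtain ⟨k, hk⟩ := h1
    have h3 : ((2 * A : ℕ) : ℤ) ∣ ((u : ℤ) ^ 2 + m * (p : ℤ) ^ 2 + w) -
        ((v : ℤ) ^ 2 + m * (p : ℤ) ^ 2 + w) := by
      refine ⟨k * v + A' * k ^ 2, ?_⟩
      have hu : (u : ℤ) = v + A * k := by linarith
      rw [hu]; push_cast; rw [hAZ]; ring
    exact (dvd_iff_dvd_of_dvd_sub h3)
  have hsplit : ∀ (u p : ℕ), ((4 * m : ℕ) : ℤ) ∣ (u : ℤ) ^ 2 + m * (p : ℤ) ^ 2 + w ↔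
      (((2 * A : ℕ) : ℤ) ∣ (u : ℤ) ^ 2 + m * (p : ℤ) ^ 2 + w ∧
      (M : ℤ) ∣ (u : ℤ) ^ 2 + m * (p : ℤ) ^ 2 + w) := by
    intro u p
    rw [h4]
    exact ⟨fun h => ⟨(Dvd.intro _ rfl).trans h, (Dvd.intro_left _ rfl).trans h⟩,
      fun h => hcop.mul_dvd h.1 h.2⟩
  rw [← card_product]
  refine Finset.card_bij' (fun t _ => (t.1 % M, (t.1 % A, t.2)))
    (fun t _ => ((Nat.chineseRemainder hAM t.2.1 t.1 : ℕ), t.2.2)) ?_ ?_ ?_ ?_
  · rintro ⟨u, p⟩ ht
    simp only [Ie, mem_filter, mem_product, mem_range] at ht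
    obtain ⟨⟨k1, k2⟩, k3⟩ := ht
    rw [hsplit] at k3
    simp only [mem_product, Iu, JJ, mem_filter, mem_range]
    refine ⟨⟨Nat.mod_lt _ (Nat.pos_of_ne_zero hM0), ?_⟩,
      ⟨Nat.mod_lt _ (Nat.pos_of_ne_zero hA0), k2⟩, ?_⟩
    · exact (hr1 u (u % M) p (Nat.mod_mod _ _).symm).1 k3.2
    · exact (hr2 u (u % A) p (Nat.mod_mod _ _).symm).1 k3.1
  · rintro ⟨v, ⟨s, p⟩⟩ ht
    simp only [mem_product, Iu, JJ, mem_filter, mem_range] at ht
    obtain ⟨⟨k1, k2⟩, ⟨k3, k4⟩, k5⟩ := ht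
    have c1 := (Nat.chineseRemainder hAM s v).2.1
    have c2 := (Nat.chineseRemainder hAM s v).2.2
    have c3 := Nat.chineseRemainder_lt_mul hAM s v hA0 hM0
    simp only [Ie, mem_filter, mem_product, mem_range]
    refine ⟨⟨by rw [h2]; exact c3, k4⟩, ?_⟩
    rw [hsplit]
    exact ⟨(hr2 _ s p c1).2 k5, (hr1 _ v p c2).2 k2⟩
  · rintro ⟨u, p⟩ ht
    simp only [Ie, mem_filter, mem_product, mem_range] at ht
    obtain ⟨⟨k1, k2⟩, k3⟩ := ht
    have c1 := (Nat.chineseRemainder hAM (u % A) (u % M)).2.1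
    have c2 := (Nat.chineseRemainder hAM (u % A) (u % M)).2.2
    have c3 := Nat.chineseRemainder_lt_mul hAM (u % A) (u % M) hA0 hM0
    simp only [Prod.mk.injEq, and_true]
    have h5 := (Nat.modEq_and_modEq_iff_modEq_mul hAM).1
      ⟨c1.trans (Nat.mod_modEq u A), c2.trans (Nat.mod_modEq u M)⟩
    exact Nat.ModEq.eq_of_lt_of_lt h5 c3 (by rw [← h2]; exact k1)
  · rintro ⟨v, ⟨s, p⟩⟩ ht
    simp only [mem_product, Iu, JJ, mem_filter, mem_range] at ht
    obtain ⟨⟨k1, k2⟩, ⟨k3, k4⟩, k5⟩ := ht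
    have c1 := (Nat.chineseRemainder hAM s v).2.1
    have c2 := (Nat.chineseRemainder hAM s v).2.2
    simp only [Prod.mk.injEq, and_true]
    exact ⟨Nat.mod_eq_of_modEq c2 k1, Nat.mod_eq_of_modEq c1 k3⟩

theorem card_JJ_congr {A m m0 : ℕ} {a a0 : ℤ} (hm : ((2 * A : ℕ) : ℤ) ∣ (m : ℤ) - m0)
    (ha : ((2 * A : ℕ) : ℤ) ∣ a - a0) : (JJ A m a).card = (JJ A m0 a0).card := by
  congr 1
  unfold JJ
  refine Finset.filter_congr fun t _ => ?_
  apply dvd_iff_dvd_of_dvd_sub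
  have : ((t.1 : ℤ) ^ 2 + m * (t.2 : ℤ) ^ 2 + a) - ((t.1 : ℤ) ^ 2 + m0 * (t.2 : ℤ) ^ 2 +
      a0) = ((m : ℤ) - m0) * (t.2 : ℤ) ^ 2 + (a - a0) := by ring
  rw [this]
  exact dvd_add (Dvd.dvd.mul_right hm _) ha

/-- the condition at `2` -/
def T2 (m : ℕ) (w : ℤ) : Prop := (m % 2 = 1 → w % 4 = 3) ∧
  (m % 2 = 0 → w % 8 = 7 ∨ w % 8 = (7 + 7 * m) % 8)

instance (m : ℕ) (a : ℤ) : Decidable (T2 m a) := by unfold T2; infer_instance

theorem card_Ie {m : ℕ} (hsq : Squarefree m) (hm : m % 4 = 1 ∨ m % 4 = 2) {w : ℤ} (hw : 0 < w)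
    (hodd : Odd w) : ((Ie m w).card : ℤ) =
      if T2 m w then 2 * ∏ p ∈ m.primeFactors.erase 2, (1 + jacobiSym (-w) p) else 0 := by
  obtain ⟨j, hj⟩ := hodd
  rcases hm with hm | hm
  · have hm2 : Odd m := Nat.odd_iff.2 (by omega)
    have h2m : 2 ∉ m.primeFactors := by
      intro h
      have := Nat.dvd_of_mem_primeFactors h
      omega
    have hc := card_crt (A := 2) (M := m) (m := m) (by decide) (by norm_num) hm2
      (Nat.coprime_two_left.2 hm2) rfl dvd_rfl w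
    have hI := card_Iu hsq hm2 (w := w) hw
    rw [hc, Finset.erase_eq_of_notMem h2m]
    push_cast
    rw [hI]
    have ha4 : w % 4 = 1 ∨ w % 4 = 3 := by omega
    rcases ha4 with h | h
    · have hJ : (JJ 2 m w).card = 0 := by
        rw [card_JJ_congr (A := 2) (m := m) (m0 := 1) (a := w) (a0 := 1) (by omega) (by omega)]
        decide
      rw [if_neg (by rintro ⟨h1, -⟩; have := h1 (by omega); omega), hJ]
      simp
    · have hJ : (JJ 2 m w).card = 2 := by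
        rw [card_JJ_congr (A := 2) (m := m) (m0 := 1) (a := w) (a0 := 3) (by omega) (by omega)]
        decide
      rw [if_pos ⟨fun _ => h, fun h1 => by omega⟩, hJ]
      push_cast; ring
  · obtain ⟨M, hM⟩ : ∃ M, m = 2 * M := ⟨m / 2, by omega⟩
    have hM2 : Odd M := Nat.odd_iff.2 (by omega)
    have hsM : Squarefree M := hsq.squarefree_of_dvd ⟨2, by rw [hM]; ring⟩
    have hpf : m.primeFactors.erase 2 = M.primeFactors := by
      have hM0 : M ≠ 0 := by omega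
      rw [hM, Nat.primeFactors_mul (by norm_num) hM0, Nat.Prime.primeFactors Nat.prime_two]
      ext p
      simp only [mem_erase, mem_union, mem_singleton]
      constructor
      · rintro ⟨h1, h2 | h2⟩
        · exact absurd h2 h1
        · exact h2
      · intro h
        refine ⟨?_, Or.inr h⟩
        rintro rfl
        have := Nat.dvd_of_mem_primeFactors h
        obtain ⟨k, hk⟩ := hM2
        omega
    have h4 : Nat.Coprime 4 M := by
      have : (4 : ℕ) = 2 * 2 := rfl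
      rw [this]
      exact Nat.Coprime.mul_left (Nat.coprime_two_left.2 hM2) (Nat.coprime_two_left.2 hM2)
    have hc := card_crt (A := 4) (M := M) (m := m) (by decide) (by norm_num) hM2
      h4 (by rw [hM]; ring) ⟨2, by rw [hM]; ring⟩ w
    have hI := card_Iu hsM hM2 (w := w) hw
    rw [hc, hpf]
    push_cast
    rw [hI]
    have key : ((JJ 4 m w).card : ℤ) = if T2 m w then 2 else 0 := by
      have hm8 : m % 8 = 2 ∨ m % 8 = 6 := by omega
      have ha8 : w % 8 = 1 ∨ w % 8 = 3 ∨ w % 8 = 5 ∨ w % 8 = 7 := by omega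
      have hT : T2 m w ↔ (w % 8 = 7 ∨ w % 8 = (7 + 7 * m) % 8) :=
        ⟨fun h => h.2 (by omega), fun h => ⟨fun h1 => by omega, fun _ => h⟩⟩
      rcases hm8 with h1 | h1 <;> rcases ha8 with h2 | h2 | h2 | h2
      · rw [if_neg (by rw [hT]; omega), card_JJ_congr (A := 4) (m := m) (m0 := 2) (a := w) (a0 := 1)
          (by omega) (by omega)]
        decide
      · rw [if_neg (by rw [hT]; omega), card_JJ_congr (A := 4) (m := m) (m0 := 2) (a := w) (a0 := 3)
          (by omega) (by omega)]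
        decide
      · rw [if_pos (hT.2 (by omega)), card_JJ_congr (A := 4) (m := m) (m0 := 2) (a := w) (a0 := 5)
          (by omega) (by omega)]
        decide
      · rw [if_pos (hT.2 (by omega)), card_JJ_congr (A := 4) (m := m) (m0 := 2) (a := w) (a0 := 7)
          (by omega) (by omega)]
        decide
      · rw [if_pos (hT.2 (by omega)), card_JJ_congr (A := 4) (m := m) (m0 := 6) (a := w) (a0 := 1)
          (by omega) (by omega)]
        decide
      · rw [if_neg (by rw [hT]; omega), card_JJ_congr (A := 4) (m := m) (m0 := 6) (a := w) (a0 := 3)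
          (by omega) (by omega)]
        decide
      · rw [if_neg (by rw [hT]; omega), card_JJ_congr (A := 4) (m := m) (m0 := 6) (a := w) (a0 := 5)
          (by omega) (by omega)]
        decide
      · rw [if_pos (hT.2 (by omega)), card_JJ_congr (A := 4) (m := m) (m0 := 6) (a := w) (a0 := 7)
          (by omega) (by omega)]
        decide
    rw [key]
    split_ifs
    · ring
    · ring

end Pool.Agent.N919.RE
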